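import Pool.Agent.Helper91.PL.Defs

/-!
# MP_bae8ce_ag : module A3 (specialisation of logarithms)
-/

set_option autoImplicit false
set_option linter.unusedSectionVars false

open Finset

namespace PL

noncomputable section

section A

universe u

variable {F : Type u} [Field F] {G : Type u} [Field G]

private theorem a3_lg_mul {x y : F} (hx : x ≠ 0) (hy : y ≠ 0) : lg (x * y) = lg x + lg y := by
  unfold lg
  rw [dif_neg (mul_ne_zero hx hy), dif_neg hx, dif_neg hy, ← TensorProduct.tmul_add,
    ← ofMul_mul]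
  congr 2
  ext
  simp

private theorem a3_exists_lift {W : Type u} [AddCommGroup W] [Module ℚ W] (f : Fˣ → W)
    (hf : ∀ x y, f (x * y) = f x + f y) :
    ∃ L : V F →ₗ[ℚ] W, ∀ x : Fˣ, L (lg (x : F)) = f x := by
  let φ : Additive Fˣ →+ W :=
    { toFun := fun x => f x.toMul
      map_zero' := by
        have h := hf 1 1
        rw [mul_one] at h
        have h2 : f 1 = 0 := by
          have := sub_eq_zero.2 h
          simpa using this
        exact h2
      map_add' := fun x y => hf _ _ }
  refine ⟨TensorProduct.AlgebraTensorModule.lift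
    (LinearMap.toSpanSingleton ℚ (Additive Fˣ →ₗ[ℤ] W) φ.toIntLinearMap), fun x => ?_⟩
  have h1 : lg (x : F) = (1 : ℚ) ⊗ₜ[ℤ] Additive.ofMul x := by
    unfold lg
    rw [dif_neg x.ne_zero]
    congr 2
    ext
    simp
  rw [h1]
  simp only [TensorProduct.AlgebraTensorModule.lift_tmul, LinearMap.toSpanSingleton_apply,
    one_smul]
  rfl

/-- the lowest coefficient of a polynomial at `a` -/
def a3lc (a : F) (P : Polynomial F) : F :=
  Polynomial.eval a (P /ₘ (Polynomial.X - Polynomial.C a) ^ Polynomial.rootMultiplicity a P)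

theorem a3lc_ne (a : F) {P : Polynomial F} (hP : P ≠ 0) : a3lc a P ≠ 0 :=
  Polynomial.eval_divByMonic_pow_rootMultiplicity_ne_zero a hP

theorem a3lc_mul (a : F) {P Q : Polynomial F} (hP : P ≠ 0) (hQ : Q ≠ 0) :
    a3lc a (P * Q) = a3lc a P * a3lc a Q := by
  unfold a3lc
  rw [Polynomial.rootMultiplicity_mul (mul_ne_zero hP hQ)]
  set m := Polynomial.rootMultiplicity a P
  set n := Polynomial.rootMultiplicity a Q
  have h1 := Polynomial.pow_mul_divByMonic_rootMultiplicity_eq P a
  have h2 := Polynomial.pow_mul_divByMonic_rootMultiplicity_eq Q a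
  set P1 := P /ₘ (Polynomial.X - Polynomial.C a) ^ m
  set Q1 := Q /ₘ (Polynomial.X - Polynomial.C a) ^ n
  have h3 : P * Q = (Polynomial.X - Polynomial.C a) ^ (m + n) * (P1 * Q1) := by
    rw [← h1, ← h2]
    ring
  have h4 : (P * Q) /ₘ (Polynomial.X - Polynomial.C a) ^ (m + n) = P1 * Q1 := by
    rw [h3]
    exact Polynomial.mul_divByMonic_cancel_left _
      ((Polynomial.monic_X_sub_C a).pow _)
  rw [h4, Polynomial.eval_mul]

theorem a3lc_eval (a : F) {P : Polynomial F} (h : P.eval a ≠ 0) : a3lc a P = P.eval a := by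
  unfold a3lc
  rw [Polynomial.rootMultiplicity_eq_zero h, pow_zero, Polynomial.divByMonic_one]

theorem exists_lc (a : F) : ∃ L : V (RatFunc F) →ₗ[ℚ] V F, ∀ (g : RatFunc F) (c : F),
    val a (some g) = some c → c ≠ 0 → L (lg g) = lg c := by
  obtain ⟨L, hL⟩ := a3_exists_lift (F := RatFunc F) (W := V F)
    (fun x => lg (a3lc a (x : RatFunc F).num) - lg (a3lc a (x : RatFunc F).denom)) (by
      intro x y
      have hx : (x : RatFunc F) ≠ 0 := x.ne_zero
      have hy : (y : RatFunc F) ≠ 0 := y.ne_zero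
      have hxy : (x : RatFunc F) * y ≠ 0 := mul_ne_zero hx hy
      have h1 := RatFunc.num_denom_mul (x : RatFunc F) (y : RatFunc F)
      have n1 : (x : RatFunc F).num ≠ 0 := RatFunc.num_ne_zero hx
      have n2 : (y : RatFunc F).num ≠ 0 := RatFunc.num_ne_zero hy
      have n3 : ((x : RatFunc F) * y).num ≠ 0 := RatFunc.num_ne_zero hxy
      have d1 : (x : RatFunc F).denom ≠ 0 := RatFunc.denom_ne_zero _
      have d2 : (y : RatFunc F).denom ≠ 0 := RatFunc.denom_ne_zero _
      have d3 : ((x : RatFunc F) * y).denom ≠ 0 := RatFunc.denom_ne_zero _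
      have h2 : lg (a3lc a (((x : RatFunc F) * y).num *
          ((x : RatFunc F).denom * (y : RatFunc F).denom))) =
          lg (a3lc a ((x : RatFunc F).num * (y : RatFunc F).num *
            ((x : RatFunc F) * y).denom)) := by rw [h1]
      rw [a3lc_mul a n3 (mul_ne_zero d1 d2), a3lc_mul a d1 d2,
        a3lc_mul a (mul_ne_zero n1 n2) d3, a3lc_mul a n1 n2,
        a3_lg_mul (a3lc_ne a n3) (mul_ne_zero (a3lc_ne a d1) (a3lc_ne a d2)),
        a3_lg_mul (a3lc_ne a d1) (a3lc_ne a d2),
        a3_lg_mul (mul_ne_zero (a3lc_ne a n1) (a3lc_ne a n2)) (a3lc_ne a d3),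
        a3_lg_mul (a3lc_ne a n1) (a3lc_ne a n2)] at h2
      rw [Units.val_mul]
      have e : lg (a3lc a ((x : RatFunc F) * y).num) =
          lg (a3lc a (x : RatFunc F).num) + lg (a3lc a (y : RatFunc F).num) +
            lg (a3lc a ((x : RatFunc F) * y).denom) -
          (lg (a3lc a (x : RatFunc F).denom) + lg (a3lc a (y : RatFunc F).denom)) := by
        rw [← h2]
        abel
      rw [e]
      abel)
  refine ⟨L, fun g c hg hc => ?_⟩
  unfold val at hg
  simp only at hg
  split_ifs at hg with hd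
  have hc' : g.num.eval a / g.denom.eval a = c := by simpa using hg
  have hn : g.num.eval a ≠ 0 := by
    intro h
    rw [h, zero_div] at hc'
    exact hc hc'.symm
  have hg0 : g ≠ 0 := by
    intro h
    rw [h] at hn
    simp at hn
  have h1 := hL (Units.mk0 g hg0)
  simp only [Units.val_mk0] at h1
  rw [h1, a3lc_eval a hn, a3lc_eval a hd, ← hc']
  have h2 := a3_lg_mul (x := g.num.eval a / g.denom.eval a) (y := g.denom.eval a)
    (div_ne_zero hn hd) hd
  rw [div_mul_cancel₀ _ hd] at h2
  rw [h2]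
  abel

end A

end

end PL
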