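import Pool.Agent.Helper91.PL.Defs2

/-!
# MP_bae8ce_ag : module P1 (admissibility)
-/

set_option autoImplicit false
set_option linter.unusedSectionVars false

open Finset

namespace PL

noncomputable section

/-! ### two facts on logarithms (private copies) -/

section

universe u

variable {F : Type u} [Field F]

private theorem p1_lg_mul {x y : F} (hx : x ≠ 0) (hy : y ≠ 0) : lg (x * y) = lg x + lg y := by
  unfold lg
  rw [dif_neg (mul_ne_zero hx hy), dif_neg hx, dif_neg hy, ← TensorProduct.tmul_add,
    ← ofMul_mul]
  congr 2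
  ext
  simp

private theorem p1_lg_eq_zero {x : F} {m : ℕ} (hm : 2 ≤ m) (h : x ^ m = x) : lg x = 0 := by
  by_cases hx : x = 0
  · unfold lg
    rw [dif_pos hx]
  have h1 : ∀ n : ℕ, 1 ≤ n → lg (x ^ n) = (n : ℚ) • lg x := by
    intro n hn
    induction n, hn using Nat.le_induction with
    | base => simp
    | succ n hn ih =>
      rw [pow_succ, p1_lg_mul (pow_ne_zero _ hx) hx, ih]
      push_cast
      rw [add_smul, one_smul]
  have h2 := h1 m (by omega)
  rw [h] at h2
  have h3 : ((m : ℚ) - 1) • lg x = 0 := by
    rw [sub_smul, one_smul, ← h2, sub_self]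
  rcases smul_eq_zero.1 h3 with h4 | h4
  · exfalso
    have : (2 : ℚ) ≤ m := by exact_mod_cast hm
    linarith
  · exact h4

end

section P

variable {k : Type} [Field k] [Fintype k] [DecidableEq k]

variable {F : Type} [Field F] [Algebra k F]

theorem el_ne_zero {x : k × k} (hx : x ≠ 0) : el F x ≠ 0 := by
  intro h
  have h1 : el F x = algebraMap (Polynomial F) (RatFunc F)
      (Polynomial.C (algebraMap k F x.1) * Polynomial.X + Polynomial.C (algebraMap k F x.2)) := by
    simp [el]
  rw [h1] at h
  have h2 := (map_eq_zero_iff _ (RatFunc.algebraMap_injective F)).1 h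
  have h3 : algebraMap k F x.1 = 0 := by
    have := congrArg (fun q => Polynomial.coeff q 1) h2
    simpa using this
  have h4 : algebraMap k F x.2 = 0 := by
    have := congrArg (fun q => Polynomial.coeff q 0) h2
    simpa using this
  apply hx
  ext
  · exact (map_eq_zero_iff _ (algebraMap k F).injective).1 h3
  · exact (map_eq_zero_iff _ (algebraMap k F).injective).1 h4

theorem p1_el_smul (c : k) (x : k × k) :
    el F (c • x) = RatFunc.C (algebraMap k F c) * el F x := by
  simp only [el, Prod.smul_fst, Prod.smul_snd, smul_eq_mul, map_mul]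
  ring

theorem lg_el_smul {c : k} (hc : c ≠ 0) (x : k × k) : lg (el F (c • x)) = lg (el F x) := by
  by_cases hx : x = 0
  · rw [hx, smul_zero]
  · have hc' : (RatFunc.C (algebraMap k F c) : RatFunc F) ≠ 0 := by
      intro h
      rw [map_eq_zero_iff _ (RatFunc.C : F →+* RatFunc F).injective,
        map_eq_zero_iff _ (algebraMap k F).injective] at h
      exact hc h
    rw [p1_el_smul, p1_lg_mul hc' (el_ne_zero hx)]
    have h0 : lg (RatFunc.C (algebraMap k F c) : RatFunc F) = 0 := by
      apply p1_lg_eq_zero (m := Fintype.card k) (Fintype.one_lt_card)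
      rw [← map_pow, ← map_pow, FiniteField.pow_card]
    rw [h0, zero_add]

theorem bar_smul {c : k} (hc : c ≠ 0) (x : k × k) : bar F (c • x) = bar F x := by
  unfold bar
  rw [lg_el_smul hc]
  simp only [smul_eq_zero, hc, false_or]

theorem sum_bar : ∑ x : k × k, bar F x = 0 := by
  rw [← Finset.add_sum_erase univ _ (Finset.mem_univ (0 : k × k))]
  have h0 : bar F (0 : k × k) = 0 := by simp [bar]
  have h1 : ∀ x ∈ univ.erase (0 : k × k), bar F x = lg (el F x) - del k F := by
    intro x hx
    simp only [Finset.mem_erase, Finset.mem_univ, and_true] at hx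
    simp [bar, hx]
  rw [h0, zero_add, Finset.sum_congr rfl h1, Finset.sum_sub_distrib, Finset.sum_const,
    Finset.card_erase_of_mem (Finset.mem_univ _), Finset.card_univ, Fintype.card_prod]
  have h2 : (1 : ℕ) < Fintype.card k := Fintype.one_lt_card
  have h3 : ((Fintype.card k : ℚ) ^ 2 - 1) ≠ 0 := by
    have : (1 : ℚ) < Fintype.card k := by exact_mod_cast h2
    nlinarith
  have h4 : ((Fintype.card k * Fintype.card k - 1 : ℕ) : ℚ) = (Fintype.card k : ℚ) ^ 2 - 1 := by
    rw [Nat.cast_sub (by nlinarith)]
    push_cast
    ring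
  rw [← Nat.cast_smul_eq_nsmul ℚ, h4]
  unfold del
  rw [smul_smul, mul_inv_cancel₀ h3, one_smul, sub_self]

theorem Phi_adm {r : ℕ} (φ : MultilinearMap ℚ (fun _ : Fin (r + 2) => V (RatFunc F)) ℚ)
    (hφ : Adm φ) : Adm0 (Phi (k := k) φ) where
  scale := by
    intro c hc χ
    unfold Phi
    simp only [bar_smul (hc _)]
  zero := by
    intro χ i hi
    unfold Phi
    rw [φ.map_coord_zero i (by simp [bar, hi])]
    simp
  marg := by
    intro χ i
    unfold Phi
    rw [← Rat.cast_sum]
    have h1 : ∀ y : k × k, (fun j => bar F (Function.update χ i y j)) =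
        Function.update (fun j => bar F (χ j)) i (bar F y) := by
      intro y
      funext j
      by_cases hj : j = i
      · subst hj
        simp
      · simp [hj]
    simp only [h1]
    rw [← φ.map_update_sum univ i (fun y => bar F y) (fun j => bar F (χ j)), sum_bar,
      φ.map_update_zero]
    simp
  symm := by
    intro σ hσ χ
    unfold Phi
    have := hφ.symm σ hσ (fun i => bar F (χ i))
    rw [← this]
    rfl
  diag := by
    intro y
    unfold Phi
    rw [hφ.diag]
    simp

end P

end

end PL
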