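import Pool.Agent.Helper93.PL.St

/-!
# Project PL, module Tot: the law over all classes
-/

set_option autoImplicit false

namespace Pool.Agent.Helper83.PL

open Finset
open Pool.Agent.Helper61.PV
open Pool.Agent.Helper93.PL

private theorem ev_lin_Tot {d : ℕ} (W : ℤ) (F g : Fin (d + 1) → ℤ) (m : ℤ) :
    ev (lin W F g) m = ev F m + W * ev g m := by
  unfold ev lin
  rw [Finset.mul_sum, ← Finset.sum_add_distrib]
  refine Finset.sum_congr rfl fun i _ => ?_
  ring

private theorem mem_Pw {w p : ℕ} : p ∈ Pw w ↔ (1 ≤ p ∧ p ≤ w) ∧ p.Prime := by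
  unfold Pw
  rw [mem_filter, mem_Icc]

private theorem nz_lin {d : ℕ} (w : ℕ) (F g : Fin (d + 1) → ℤ) (p : ℕ) (hp : p ∈ Pw w) :
    Nz (lin ((primorial w : ℕ) : ℤ) F g) p = Nz F p := by
  have hdvd : (p : ℤ) ∣ ((primorial w : ℕ) : ℤ) := by
    rw [Int.natCast_dvd_natCast]
    unfold primorial
    refine Finset.dvd_prod_of_mem _ ?_
    rw [mem_filter, mem_range]
    have := mem_Pw.1 hp
    exact ⟨by omega, this.2⟩
  unfold Nz
  congr 1
  refine Finset.filter_congr fun r _ => ?_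
  rw [ev_lin_Tot]
  exact dvd_add_left (hdvd.mul_right _)

private theorem one_sub_pos_Tot {w : ℕ} (p : Pw w) : (0 : ℝ) < 1 - (1 / (p.1 : ℝ)) ^ p.1 := by
  have hp := (mem_Pw.1 p.2).2
  have h2 : (2 : ℝ) ≤ p.1 := by exact_mod_cast hp.two_le
  have h3 : (1 / (p.1 : ℝ)) ^ p.1 < 1 := by
    refine pow_lt_one₀ (by positivity) ?_ hp.ne_zero
    rw [div_lt_one (by linarith)]
    linarith
  linarith

private theorem pi_filter_Tot (w : ℕ) :
    (Fintype.piFinset (fun p : Pw w => range (p.1 + 1))).filter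
      (fun n => ∀ p : Pw w, n p < p.1) = Fintype.piFinset (fun p : Pw w => range p.1) := by
  ext n
  simp only [mem_filter, Fintype.mem_piFinset, mem_range]
  exact ⟨fun h p => h.2 p, fun h => ⟨fun p => (h p).trans (Nat.lt_succ_self _), h⟩⟩

private theorem law_sum (w j : ℕ) (x : ℝ) :
    ∑ n ∈ Fintype.piFinset (fun p : Pw w => range (p.1 + 1)), (∏ p : Pw w, bw p.1 (n p)) *
      (if ∀ p : Pw w, n p < p.1 then pois j (x * eu n) else 0) = Pst w * LawW w j x := by
  simp only [mul_ite, mul_zero]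
  rw [← Finset.sum_filter, pi_filter_Tot]
  unfold LawW Pst
  rw [mul_sum]
  refine Finset.sum_congr rfl fun n _ => ?_
  rw [← mul_assoc, ← prod_mul_distrib]
  congr 1
  refine Finset.prod_congr rfl fun p _ => ?_
  rw [mul_div_cancel₀]
  exact (one_sub_pos_Tot p).ne'

private theorem bw_sum (p : ℕ) :
    ∑ n ∈ range p, bw p n = 1 - (1 / (p : ℝ)) ^ p := by
  have h1 := add_pow (1 / (p : ℝ)) (1 - 1 / (p : ℝ)) p
  rw [add_sub_cancel, one_pow, Finset.sum_range_succ, Nat.sub_self, pow_zero, mul_one,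
    Nat.choose_self, Nat.cast_one, mul_one] at h1
  rw [eq_sub_iff_add_eq]
  refine Eq.trans ?_ h1.symm
  congr 1
  refine Finset.sum_congr rfl fun n _ => ?_
  unfold bw
  ring

private theorem pst_sum (w : ℕ) :
    ∑ n ∈ Fintype.piFinset (fun p : Pw w => range (p.1 + 1)), (∏ p : Pw w, bw p.1 (n p)) *
      (if ∀ p : Pw w, n p < p.1 then (1 : ℝ) else 0) = Pst w := by
  simp only [mul_ite, mul_zero, mul_one]
  rw [← Finset.sum_filter, pi_filter_Tot]
  unfold Pst
  rw [← Finset.prod_univ_sum (fun p : Pw w => range p.1) (fun (p : Pw w) n => bw p.1 n)]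
  refine Finset.prod_congr rfl fun p _ => ?_
  exact bw_sum p.1

private theorem sum_est {ι : Type} (T : Finset ι) (a v e P : ι → ℝ) (q δ : ℝ)
    (hP : ∀ F ∈ T, |P F - q| ≤ δ * q) (hv : ∀ F ∈ T, 0 ≤ v F ∧ v F ≤ 1)
    (he : ∀ F ∈ T, 0 ≤ e F) (ha : ∀ F ∈ T, |a F - v F * P F| ≤ e F * P F) :
    |∑ F ∈ T, a F - q * ∑ F ∈ T, v F| ≤ (1 + δ) * q * ∑ F ∈ T, e F + δ * q * #T := by
  rw [mul_sum, ← sum_sub_distrib]
  calc |∑ F ∈ T, (a F - q * v F)| ≤ ∑ F ∈ T, |a F - q * v F| := abs_sum_le_sum_abs _ _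
    _ ≤ ∑ F ∈ T, ((1 + δ) * q * e F + δ * q) := by
        refine sum_le_sum fun F hF => ?_
        have h1 := ha F hF
        have h2 := hP F hF
        have h3 : P F ≤ (1 + δ) * q := by
          have := (abs_le.1 h2).2
          linarith
        have h4 : |v F * P F - q * v F| ≤ δ * q := by
          have h6 : v F * P F - q * v F = v F * (P F - q) := by ring
          rw [h6, abs_mul, abs_of_nonneg (hv F hF).1]
          calc v F * |P F - q| ≤ 1 * |P F - q| :=
                mul_le_mul_of_nonneg_right (hv F hF).2 (abs_nonneg _)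
            _ ≤ δ * q := by rw [one_mul]; exact h2
        have h5 : e F * P F ≤ (1 + δ) * q * e F := by
          have := mul_le_mul_of_nonneg_left h3 (he F hF)
          linarith
        calc |a F - q * v F| ≤ |a F - v F * P F| + |v F * P F - q * v F| := abs_sub_le _ _ _
          _ ≤ (1 + δ) * q * e F + δ * q := by linarith
    _ = (1 + δ) * q * ∑ F ∈ T, e F + δ * q * #T := by
        rw [sum_add_distrib, ← mul_sum, sum_const, nsmul_eq_mul]
        ring

theorem hTot (hLc1 : StLc1) (hEul : StEul) (hUni : StUni) (hBxc : StBxc) (hBmo : StBmo)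
    (hFac : StFac) (hSer : StSer) (hBox : StBox) (hCls : StCls) (hCar : StCar) : StTot := by
  classical
  intro j ε₀ x hε₀ hx
  obtain ⟨ε, hε, hε1, hεε⟩ : ∃ ε : ℝ, 0 < ε ∧ ε ≤ 1 ∧ ε ≤ ε₀ :=
    ⟨min ε₀ 1, lt_min hε₀ one_pos, min_le_right _ _, min_le_left _ _⟩
  obtain ⟨r, hr⟩ := hFac j x (ε / 8) hx (by positivity)
  obtain ⟨w₀, hw₀⟩ := hLc1 j r (ε / 8) x (by positivity) hx
  refine ⟨j + r + 1, w₀, ε / 16, by positivity, ?_⟩
  intro w hw κ μ hκ hκ0 hκ4 hμ hμ0 hμx
  obtain ⟨H₁, hH₁⟩ := hw₀ w hw μ κ hμ hμx hκ hκ4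
  have hW : 1 ≤ primorial w := primorial_pos w
  obtain ⟨H₂, hH₂⟩ := hBox (primorial w) κ hW hκ hκ4
  obtain ⟨H₃, hH₃⟩ := hBxc (primorial w) κ (ε / 8) hW hκ hκ4 (by positivity) (by linarith)
  refine ⟨max (max H₁ H₂) (max H₃ 3), ?_⟩
  intro H hH d hd hpow
  have hHH₁ : H₁ ≤ H := le_trans (le_trans (le_max_left _ _) (le_max_left _ _)) hH
  have hHH₂ : H₂ ≤ H := le_trans (le_trans (le_max_right _ _) (le_max_left _ _)) hH
  have hHH₃ : H₃ ≤ H := le_trans (le_trans (le_max_left _ _) (le_max_right _ _)) hH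
  have hH3 : 3 ≤ H := le_trans (le_trans (le_max_right _ _) (le_max_right _ _)) hH
  have hd1 : 1 ≤ d := by omega
  have hΛ : (1 : ℝ) ≤ Real.log H + d := by
    have h1 : 0 ≤ Real.log (H : ℝ) := Real.log_natCast_nonneg H
    have h2 : (1 : ℝ) ≤ d := by exact_mod_cast hd1
    linarith
  have hpow40 : (Real.log H + d) ^ 40 ≤ (H : ℝ) :=
    (pow_le_pow_right₀ hΛ (by omega)).trans hpow
  -- boxes
  set T : Finset (Fin (d + 1) → ℤ) :=
    Fintype.piFinset (fun _ : Fin (d + 1) => Ico (0 : ℤ) ((primorial w : ℕ) : ℤ)) with hTdef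
  have hT : ∀ F ∈ T, ∀ i, 0 ≤ F i ∧ F i < ((primorial w : ℕ) : ℤ) := by
    intro F hF i
    rw [hTdef, Fintype.mem_piFinset] at hF
    exact mem_Ico.1 (hF i)
  have hex : ∀ F : Fin (d + 1) → ℤ, (∀ i, 0 ≤ F i ∧ F i < ((primorial w : ℕ) : ℤ)) →
      ∃ (A : Fin (d + 1) → ℤ) (h : Fin (d + 1) → ℕ), Cond (primorial w) H κ F A h ∧
      ∀ g : Fin (d + 1) → ℤ, g ∈ Bx A h ↔
        (lin ((primorial w : ℕ) : ℤ) F g ∈ Bxx d H ∧
          κ * H ≤ ((lin ((primorial w : ℕ) : ℤ) F g (Fin.last d) : ℤ) : ℝ)) :=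
    fun F hF => hH₂ H hHH₂ d F hF
  choose! A h hA using hex
  have hcls := hCls (primorial w) H d κ hW A h (fun F hF g => (hA F (hT F hF)).2 g)
  set M : ℝ := ((primorial w : ℕ) : ℝ) ^ (d + 1) with hM
  have hMpos : 0 < M := by
    rw [hM]
    have : (0 : ℝ) < ((primorial w : ℕ) : ℝ) := by exact_mod_cast hW
    positivity
  set N : ℝ := (#(Bxx d H) : ℝ) with hN
  have hN0 : 0 ≤ N := by rw [hN]; positivity
  set q : ℝ := N / M with hq
  have hq0 : 0 ≤ q := by rw [hq]; positivity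
  have hqM : q * M = N := by rw [hq]; field_simp
  have hP : ∀ F ∈ T, |(∏ i, (h F i : ℝ)) - q| ≤ ε / 8 * q := by
    intro F hF
    exact hH₃ H hHH₃ d hpow40 F (A F) (h F) (hT F hF) (hA F (hT F hF)).1 (hA F (hT F hF)).2
  have hwd : w ≤ d + 1 := by omega
  have huni := hUni w d hwd
  -- Euler products
  set b : (Fin (d + 1) → ℤ) → ℝ := fun F => eu (w := w) (fun p => Nz F p.1) with hbdef
  have hb : ∀ F, ((Rc (primorial w) F : ℝ) / Nat.totient (primorial w)) = b F :=
    fun F => (hEul w d F).1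
  have hb0 : ∀ F, 0 ≤ b F := fun F => by rw [← hb F]; positivity
  have hS0 : ∑ F ∈ T, (1 : ℝ) = M := by
    have h1 := huni (fun _ => (1 : ℝ))
    simp only [mul_one] at h1
    rw [hBmo.2.1 w, mul_one] at h1
    exact h1
  have hcardT : (#T : ℝ) = M := by
    rw [← hS0, sum_const, nsmul_eq_mul, mul_one]
  have hS1 : ∑ F ∈ T, b F = M := by
    have h1 := huni (fun n => eu n)
    rw [hBmo.1 w, mul_one] at h1
    exact h1
  have hSK : ∑ F ∈ T, b F ^ (j + r + 1) ≤
      M * (2 * Real.sqrt (((j + r + 1 : ℕ) : ℝ) + 2) * Real.exp 4) ^ (j + r + 1) := by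
    have h1 := huni (fun n => eu n ^ (j + r + 1))
    refine h1.le.trans ?_
    exact mul_le_mul_of_nonneg_left (hBmo.2.2 (j + r + 1) w) hMpos.le
  have hgood : ∀ (F g : Fin (d + 1) → ℤ),
      (∀ p ∈ Pw w, Nz (lin ((primorial w : ℕ) : ℤ) F g) p < p) ↔ ∀ p ∈ Pw w, Nz F p < p := by
    intro F g
    refine forall₂_congr fun p hp => ?_
    rw [nz_lin w F g p hp]
  have hgood2 : ∀ F : Fin (d + 1) → ℤ, (∀ p ∈ Pw w, Nz F p < p) ↔ ∀ p : Pw w, Nz F p.1 < p.1 := by
    intro F
    exact ⟨fun h p => h p.1 p.2, fun h p hp => h ⟨p, hp⟩⟩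
  refine ⟨?_, ?_⟩
  · -- first part
    have hc1 := hcls (fun c => (∀ p ∈ Pw w, Nz c p < p) ∧
      nP c (μ * Sz H d) (x * Sz H d) = j)
    have hc2 : (Nat.card {c : Fin (d + 1) → ℤ // c ∈ Bxx d H ∧
        κ * H ≤ ((c (Fin.last d) : ℤ) : ℝ) ∧
        (∀ p ∈ Pw w, Nz c p < p) ∧ nP c (μ * Sz H d) (x * Sz H d) = j} : ℝ) =
        ∑ F ∈ T, (Nat.card {g : Fin (d + 1) → ℤ // g ∈ Bx (A F) (h F) ∧
          (∀ p ∈ Pw w, Nz (lin ((primorial w : ℕ) : ℤ) F g) p < p) ∧
          nP (lin ((primorial w : ℕ) : ℤ) F g) (μ * Sz H d) (x * Sz H d) = j} : ℝ) := by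
      rw [hc1]
      push_cast
      rfl
    rw [hc2]
    set e : (Fin (d + 1) → ℤ) → ℝ := fun F => ε / 8 + μ * b F +
      2 * ((j + r + 1).choose j : ℝ) * ((x * b F) ^ (j + r + 1) / (j + r + 1).factorial) with he
    set v : (Fin (d + 1) → ℤ) → ℝ := fun F =>
      if ∀ p : Pw w, Nz F p.1 < p.1 then pois j (x * b F) else 0 with hv
    have hev : ∀ F, 0 ≤ e F := by
      intro F
      have := hb0 F
      rw [he]
      positivity
    have hvv : ∀ F, 0 ≤ v F ∧ v F ≤ 1 := by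
      intro F
      rw [hv]
      have h2 := hSer.2.1 j (x * b F) (mul_nonneg hx.le (hb0 F))
      by_cases h1 : ∀ p : Pw w, Nz F p.1 < p.1
      · simp only [h1]
        simpa using h2
      · simp only [h1]
        simp
    have hest := sum_est T (fun F => (Nat.card {g : Fin (d + 1) → ℤ // g ∈ Bx (A F) (h F) ∧
          (∀ p ∈ Pw w, Nz (lin ((primorial w : ℕ) : ℤ) F g) p < p) ∧
          nP (lin ((primorial w : ℕ) : ℤ) F g) (μ * Sz H d) (x * Sz H d) = j} : ℝ)) v e
      (fun F => ∏ i, (h F i : ℝ)) q (ε / 8) hP (fun F _ => hvv F)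
      (fun F _ => hev F) (by
        intro F hF
        have hP0 : 0 ≤ ∏ i, (h F i : ℝ) := prod_nonneg fun i _ => Nat.cast_nonneg _
        by_cases h1 : ∀ p ∈ Pw w, Nz F p < p
        · have h2 := hH₁ H hHH₁ d hd1 (by omega) hpow F (A F) (h F) (hA F (hT F hF)).1
          rw [hb F] at h2
          have h3 : v F = pois j (x * b F) := by
            rw [hv]
            exact if_pos ((hgood2 F).1 h1)
          have h4 : Nat.card {g : Fin (d + 1) → ℤ // g ∈ Bx (A F) (h F) ∧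
              (∀ p ∈ Pw w, Nz (lin ((primorial w : ℕ) : ℤ) F g) p < p) ∧
              nP (lin ((primorial w : ℕ) : ℤ) F g) (μ * Sz H d) (x * Sz H d) = j} =
              Nat.card {g : Fin (d + 1) → ℤ // g ∈ Bx (A F) (h F) ∧
              nP (lin ((primorial w : ℕ) : ℤ) F g) (μ * Sz H d) (x * Sz H d) = j} := by
            refine Nat.card_congr (Equiv.subtypeEquivRight fun g => ?_)
            rw [hgood F g]
            exact ⟨fun h5 => ⟨h5.1, h5.2.2⟩, fun h5 => ⟨h5.1, h1, h5.2⟩⟩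
          simp only [h4, h3]
          exact h2
        · have h3 : v F = 0 := by
            rw [hv]
            exact if_neg fun h5 => h1 ((hgood2 F).2 h5)
          have h4 : Nat.card {g : Fin (d + 1) → ℤ // g ∈ Bx (A F) (h F) ∧
              (∀ p ∈ Pw w, Nz (lin ((primorial w : ℕ) : ℤ) F g) p < p) ∧
              nP (lin ((primorial w : ℕ) : ℤ) F g) (μ * Sz H d) (x * Sz H d) = j} = 0 := by
            rw [Nat.card_eq_zero]
            left
            exact ⟨fun g => h1 ((hgood F g.1).1 g.2.2.1)⟩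
          simp only [h4, h3]
          have := mul_nonneg (hev F) hP0
          simpa using this)
    have hVsum : ∑ F ∈ T, v F = M * (Pst w * LawW w j x) := by
      have h1 := huni (fun n => if ∀ p : Pw w, n p < p.1 then pois j (x * eu n) else 0)
      rw [law_sum] at h1
      exact h1
    have hEsum : ∑ F ∈ T, e F ≤ M * (ε / 8 + μ + ε / 8) := by
      have h1 : ∑ F ∈ T, e F = ε / 8 * ∑ F ∈ T, (1 : ℝ) + μ * ∑ F ∈ T, b F +
          2 * ((j + r + 1).choose j : ℝ) * (x ^ (j + r + 1) / (j + r + 1).factorial) *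
            ∑ F ∈ T, b F ^ (j + r + 1) := by
        rw [mul_sum, mul_sum, mul_sum, ← sum_add_distrib, ← sum_add_distrib]
        refine Finset.sum_congr rfl fun F _ => ?_
        rw [he]
        simp only
        rw [mul_pow]
        ring
      have h2 : 2 * ((j + r + 1).choose j : ℝ) * (x ^ (j + r + 1) / (j + r + 1).factorial) *
            ∑ F ∈ T, b F ^ (j + r + 1) ≤ M * (ε / 8) := by
        refine (mul_le_mul_of_nonneg_left hSK (by positivity)).trans ?_
        have h3 := mul_le_mul_of_nonneg_left hr hMpos.le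
        refine le_trans (le_of_eq ?_) h3
        ring
      rw [h1, hS0, hS1]
      linarith
    have h5 : q * ∑ F ∈ T, v F = Pst w * LawW w j x * N := by
      rw [hVsum, ← hqM]
      ring
    rw [h5] at hest
    refine hest.trans ?_
    rw [hcardT]
    have h6 : (1 + ε / 8) * q * ∑ F ∈ T, e F ≤ (1 + ε / 8) * q * (M * (ε / 8 + μ + ε / 8)) :=
      mul_le_mul_of_nonneg_left hEsum (by positivity)
    have h7 : (1 + ε / 8) * q * (M * (ε / 8 + μ + ε / 8)) + ε / 8 * q * M =
        ((1 + ε / 8) * (ε / 8 + μ + ε / 8) + ε / 8) * N := by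
      rw [← hqM]
      ring
    have h8 : (1 + ε / 8) * (ε / 8 + μ + ε / 8) + ε / 8 ≤ ε₀ := by
      have h9 : (1 + ε / 8) * (ε / 8 + μ + ε / 8) ≤ (1 + 1 / 8) * (ε / 8 + ε / 16 + ε / 8) :=
        mul_le_mul (by linarith) (by linarith) (by positivity) (by norm_num)
      linarith
    calc _ ≤ (1 + ε / 8) * q * (M * (ε / 8 + μ + ε / 8)) + ε / 8 * q * M := by linarith
      _ = ((1 + ε / 8) * (ε / 8 + μ + ε / 8) + ε / 8) * N := h7
      _ ≤ ε₀ * N := mul_le_mul_of_nonneg_right h8 hN0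
  · -- second part
    have hc1 := hcls (fun c => ∀ p ∈ Pw w, Nz c p < p)
    have hc2 : (Nat.card {c : Fin (d + 1) → ℤ // c ∈ Bxx d H ∧
        κ * H ≤ ((c (Fin.last d) : ℤ) : ℝ) ∧ (∀ p ∈ Pw w, Nz c p < p)} : ℝ) =
        ∑ F ∈ T, (Nat.card {g : Fin (d + 1) → ℤ // g ∈ Bx (A F) (h F) ∧
          (∀ p ∈ Pw w, Nz (lin ((primorial w : ℕ) : ℤ) F g) p < p)} : ℝ) := by
      rw [hc1]
      push_cast
      rfl
    rw [hc2]
    set v : (Fin (d + 1) → ℤ) → ℝ := fun F =>
      if ∀ p : Pw w, Nz F p.1 < p.1 then 1 else 0 with hv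
    have hvv : ∀ F, 0 ≤ v F ∧ v F ≤ 1 := by
      intro F
      rw [hv]
      by_cases h1 : ∀ p : Pw w, Nz F p.1 < p.1
      · simp only [h1]
        simp
      · simp only [h1]
        simp
    have hest := sum_est T (fun F => (Nat.card {g : Fin (d + 1) → ℤ // g ∈ Bx (A F) (h F) ∧
          (∀ p ∈ Pw w, Nz (lin ((primorial w : ℕ) : ℤ) F g) p < p)} : ℝ)) v (fun _ => 0)
      (fun F => ∏ i, (h F i : ℝ)) q (ε / 8) hP (fun F _ => hvv F)
      (fun F _ => le_rfl) (by
        intro F hF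
        by_cases h1 : ∀ p ∈ Pw w, Nz F p < p
        · have h3 : v F = 1 := by
            rw [hv]
            exact if_pos ((hgood2 F).1 h1)
          have h4 : Nat.card {g : Fin (d + 1) → ℤ // g ∈ Bx (A F) (h F) ∧
              (∀ p ∈ Pw w, Nz (lin ((primorial w : ℕ) : ℤ) F g) p < p)} =
              #(Bx (A F) (h F)) := by
            refine Nat.subtype_card _ fun g => ?_
            rw [hgood F g]
            exact ⟨fun h5 => ⟨h5, h1⟩, fun h5 => h5.1⟩
          have h5 : (#(Bx (A F) (h F)) : ℝ) = ∏ i, (h F i : ℝ) := by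
            rw [(hCar d (A F) (h F)).1]
            push_cast
            rfl
          simp only [h4, h3, h5]
          simp
        · have h3 : v F = 0 := by
            rw [hv]
            exact if_neg fun h5 => h1 ((hgood2 F).2 h5)
          have h4 : Nat.card {g : Fin (d + 1) → ℤ // g ∈ Bx (A F) (h F) ∧
              (∀ p ∈ Pw w, Nz (lin ((primorial w : ℕ) : ℤ) F g) p < p)} = 0 := by
            rw [Nat.card_eq_zero]
            left
            exact ⟨fun g => h1 ((hgood F g.1).1 g.2.2)⟩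
          simp only [h4, h3]
          simp)
    have hVsum : ∑ F ∈ T, v F = M * Pst w := by
      have h1 := huni (fun n => if ∀ p : Pw w, n p < p.1 then (1 : ℝ) else 0)
      rw [pst_sum] at h1
      exact h1
    have h5 : q * ∑ F ∈ T, v F = Pst w * N := by
      rw [hVsum, ← hqM]
      ring
    rw [h5] at hest
    refine hest.trans ?_
    rw [hcardT, sum_const_zero, mul_zero, zero_add]
    calc ε / 8 * q * M = ε / 8 * N := by rw [← hqM]; ring
      _ ≤ ε₀ * N := mul_le_mul_of_nonneg_right (by linarith) hN0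

end Pool.Agent.Helper83.PL
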